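import Pool.Agent.Helper21.MT8.Stmts
import Pool.Agent.Helper43.MT7.CLIF

/-!
# CLIF8: Lie algebras normalised by a strongly irreducible group containing a pseudo-reflection

`MT.st_CLIF8 : ST_CLIF8`: a Lie algebra (only: a space of matrices) `a`, normalised by a strongly
irreducible group which contains a pseudo-reflection, and containing a nonzero nilpotent matrix, has
no stable subspaces besides `⊥` and `⊤`.
-/

set_option autoImplicit false

namespace MT
namespace Clif8

open Clif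

variable {K : Type} [Field K] {n : ℕ}
variable {a : Submodule K (Matrix (Fin n) (Fin n) K)}

/-! ### weight spaces -/

/-- the weight space of `χ` -/
def Vw (a : Submodule K (Matrix (Fin n) (Fin n) K)) (χ : {A // A ∈ a} → K) :
    Submodule K (Fin n → K) where
  carrier := {v | ∀ A : {A // A ∈ a}, A.1.mulVec v = χ A • v}
  add_mem' := by
    intro v w hv hw A
    rw [Matrix.mulVec_add, hv A, hw A, smul_add]
  zero_mem' := by
    intro A
    rw [Matrix.mulVec_zero, smul_zero]
  smul_mem' := by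
    intro c v hv A
    rw [Matrix.mulVec_smul, hv A, smul_comm]

lemma mem_Vw (χ : {A // A ∈ a} → K) (v : Fin n → K) :
    v ∈ Vw a χ ↔ ∀ A : {A // A ∈ a}, A.1.mulVec v = χ A • v := Iff.rfl

lemma sum_zero (s : Finset ({A // A ∈ a} → K)) :
    ∀ (v : ({A // A ∈ a} → K) → (Fin n → K)), (∀ χ ∈ s, v χ ∈ Vw a χ) →
      ∑ χ ∈ s, v χ = 0 → ∀ χ ∈ s, v χ = 0 := by
  classical
  induction s using Finset.induction_on with
  | empty => intro v _ _ χ hχ; exact absurd hχ (Finset.notMem_empty χ)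
  | insert χ₀ s h₀ ih =>
    intro v hv hs
    have hs1 : v χ₀ + ∑ χ ∈ s, v χ = 0 := by rw [← Finset.sum_insert h₀]; exact hs
    have h1 : ∀ A : {A // A ∈ a}, ∀ χ ∈ s, (χ A - χ₀ A) • v χ = 0 := by
      intro A
      apply ih (fun χ => (χ A - χ₀ A) • v χ)
      · intro χ hχ
        exact (Vw a χ).smul_mem _ (hv χ (Finset.mem_insert_of_mem hχ))
      · have e1 : A.1.mulVec (v χ₀ + ∑ χ ∈ s, v χ) = 0 := by rw [hs1, Matrix.mulVec_zero]
        have e2 : A.1.mulVec (∑ χ ∈ s, v χ) = ∑ χ ∈ s, χ A • v χ := by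
          have := map_sum (Matrix.mulVecLin A.1) v s
          simp only [Matrix.mulVecLin_apply] at this
          rw [this]
          exact Finset.sum_congr rfl fun χ hχ => hv χ (Finset.mem_insert_of_mem hχ) A
        rw [Matrix.mulVec_add, e2, hv χ₀ (Finset.mem_insert_self _ _) A] at e1
        have e3 : χ₀ A • v χ₀ + ∑ χ ∈ s, χ₀ A • v χ = 0 := by
          rw [← Finset.smul_sum, ← smul_add, hs1, smul_zero]
        calc ∑ χ ∈ s, (χ A - χ₀ A) • v χ
            = (χ₀ A • v χ₀ + ∑ χ ∈ s, χ A • v χ) - (χ₀ A • v χ₀ + ∑ χ ∈ s, χ₀ A • v χ) := by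
              rw [add_sub_add_left_eq_sub, ← Finset.sum_sub_distrib]
              exact Finset.sum_congr rfl fun χ _ => sub_smul _ _ _
          _ = 0 := by rw [e1, e3, sub_zero]
    have h2 : ∀ χ ∈ s, v χ = 0 := by
      intro χ hχ
      have hne : χ ≠ χ₀ := fun e => h₀ (e ▸ hχ)
      obtain ⟨A, hA⟩ := Function.ne_iff.1 hne
      exact (smul_eq_zero.1 (h1 A χ hχ)).resolve_left (sub_ne_zero.2 hA)
    intro χ hχ
    rcases Finset.mem_insert.1 hχ with rfl | hχ
    · rw [Finset.sum_eq_zero h2, add_zero] at hs1; exact hs1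
    · exact h2 χ hχ

lemma finite_Vw : {χ : {A // A ∈ a} → K | Vw a χ ≠ ⊥}.Finite := by
  classical
  have hch : ∀ χ : {χ : {A // A ∈ a} → K // Vw a χ ≠ ⊥}, ∃ v ∈ Vw a χ.1, v ≠ 0 := fun χ =>
    Submodule.exists_mem_ne_zero_of_ne_bot χ.2
  choose v hv hv0 using hch
  have hli : LinearIndependent K v := by
    rw [linearIndependent_iff']
    intro s g hs χ hχ
    let w : ({A // A ∈ a} → K) → (Fin n → K) := fun χ =>
      if h : Vw a χ ≠ ⊥ then g ⟨χ, h⟩ • v ⟨χ, h⟩ else 0
    have h1 := sum_zero (s.map (Function.Embedding.subtype _)) w (by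
      intro ξ hξ
      obtain ⟨ζ, hζ, rfl⟩ := Finset.mem_map.1 hξ
      have : w (Function.Embedding.subtype _ ζ) = g ζ • v ζ := dif_pos ζ.2
      rw [this]
      exact (Vw a ζ.1).smul_mem _ (hv ζ)) (by
      rw [Finset.sum_map, ← hs]
      refine Finset.sum_congr rfl fun ζ _ => ?_
      exact dif_pos ζ.2)
    have h2 := h1 χ.1 (Finset.mem_map.2 ⟨χ, hχ, rfl⟩)
    have h3 : w χ.1 = g χ • v χ := dif_pos χ.2
    rw [h3] at h2
    exact (smul_eq_zero.1 h2).resolve_right (hv0 χ)
  exact Set.finite_coe_iff.1 (LinearIndependent.finite_of_isNoetherian hli)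

section Gact
variable {G : Subgroup (Matrix.GeneralLinearGroup (Fin n) K)}

/-- the conjugate of a weight -/
def cw (h : Nrm G a) (g : Matrix.GeneralLinearGroup (Fin n) K) (hg : g ∈ G)
    (χ : {A // A ∈ a} → K) : {A // A ∈ a} → K := fun A =>
  χ ⟨((g⁻¹ : Matrix.GeneralLinearGroup (Fin n) K) : Matrix (Fin n) (Fin n) K) * A.1 *
    (g : Matrix (Fin n) (Fin n) K), by
      have := h g⁻¹ (G.inv_mem hg) A.1 A.2
      rwa [inv_inv] at this⟩

lemma gm (g : Matrix.GeneralLinearGroup (Fin n) K) : (g : Matrix (Fin n) (Fin n) K) *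
    ((g⁻¹ : Matrix.GeneralLinearGroup (Fin n) K) : Matrix (Fin n) (Fin n) K) = 1 := by
  rw [← Units.val_mul, mul_inv_cancel]; rfl

lemma mg (g : Matrix.GeneralLinearGroup (Fin n) K) :
    ((g⁻¹ : Matrix.GeneralLinearGroup (Fin n) K) : Matrix (Fin n) (Fin n) K) *
      (g : Matrix (Fin n) (Fin n) K) = 1 := by
  rw [← Units.val_mul, inv_mul_cancel]; rfl

lemma map_Vw (h : Nrm G a) {g : Matrix.GeneralLinearGroup (Fin n) K} (hg : g ∈ G)
    (χ : {A // A ∈ a} → K) :
    (Vw a χ).map (Matrix.mulVecLin (g : Matrix (Fin n) (Fin n) K)) = Vw a (cw h g hg χ) := by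
  ext w
  constructor
  · rintro ⟨v, hv, rfl⟩ A
    have h1 := hv ⟨((g⁻¹ : Matrix.GeneralLinearGroup (Fin n) K) : Matrix (Fin n) (Fin n) K) *
      A.1 * (g : Matrix (Fin n) (Fin n) K), by
        have := h g⁻¹ (G.inv_mem hg) A.1 A.2
        rwa [inv_inv] at this⟩
    have h2 := congrArg ((g : Matrix (Fin n) (Fin n) K).mulVec) h1
    rw [Matrix.mulVec_mulVec, Matrix.mulVec_smul] at h2
    have h3 : (g : Matrix (Fin n) (Fin n) K) *
        (((g⁻¹ : Matrix.GeneralLinearGroup (Fin n) K) : Matrix (Fin n) (Fin n) K) *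
        A.1 * (g : Matrix (Fin n) (Fin n) K)) = A.1 * (g : Matrix (Fin n) (Fin n) K) := by
      rw [← mul_assoc, ← mul_assoc, gm, one_mul]
    simp only at h2
    rw [h3] at h2
    rw [Matrix.mulVecLin_apply, Matrix.mulVec_mulVec]
    exact h2
  · intro hw
    refine ⟨((g⁻¹ : Matrix.GeneralLinearGroup (Fin n) K) : Matrix (Fin n) (Fin n) K).mulVec w,
      ?_, ?_⟩
    · intro A
      have h1 := hw ⟨(g : Matrix (Fin n) (Fin n) K) * A.1 *
        ((g⁻¹ : Matrix.GeneralLinearGroup (Fin n) K) : Matrix (Fin n) (Fin n) K), h g hg A.1 A.2⟩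
      have h2 := congrArg
        (((g⁻¹ : Matrix.GeneralLinearGroup (Fin n) K) : Matrix (Fin n) (Fin n) K).mulVec) h1
      rw [Matrix.mulVec_mulVec, Matrix.mulVec_smul] at h2
      have h3 : ((g⁻¹ : Matrix.GeneralLinearGroup (Fin n) K) : Matrix (Fin n) (Fin n) K) *
          ((g : Matrix (Fin n) (Fin n) K) * A.1 *
          ((g⁻¹ : Matrix.GeneralLinearGroup (Fin n) K) : Matrix (Fin n) (Fin n) K)) =
          A.1 * ((g⁻¹ : Matrix.GeneralLinearGroup (Fin n) K) : Matrix (Fin n) (Fin n) K) := by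
        rw [← mul_assoc, ← mul_assoc, mg, one_mul]
      simp only at h2
      rw [h3] at h2
      rw [Matrix.mulVec_mulVec, h2]
      have h4 : cw h g hg χ ⟨(g : Matrix (Fin n) (Fin n) K) * A.1 *
        ((g⁻¹ : Matrix.GeneralLinearGroup (Fin n) K) : Matrix (Fin n) (Fin n) K),
          h g hg A.1 A.2⟩ = χ A := by
        unfold cw
        congr 1
        apply Subtype.ext
        change _ * (_ * A.1 * _) * _ = A.1
        rw [mul_assoc, mul_assoc, mg, mul_one, ← mul_assoc, mg, one_mul]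
      rw [h4]
    · rw [Matrix.mulVecLin_apply, Matrix.mulVec_mulVec, gm, Matrix.one_mulVec]

/-- no common eigenvectors, if `a` contains a nonzero nilpotent matrix -/
lemma no_eig (hG : SIrr G) (h : Nrm G a) {N : Matrix (Fin n) (Fin n) K} (hN : N ∈ a)
    (hN0 : N ≠ 0) (hnil : IsNilpotent N) {v : Fin n → K} (hv : v ≠ 0)
    (hev : ∀ A ∈ a, ∃ c : K, A.mulVec v = c • v) : False := by
  classical
  choose f hf using hev
  have hvm : v ∈ Vw a (fun A => f A.1 A.2) := fun A => hf A.1 A.2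
  have hne : ∀ χ : {A // A ∈ a} → K, Vw a χ ≠ ⊥ → ∀ g (hg : g ∈ G),
      Vw a (cw h g hg χ) ≠ ⊥ := by
    intro χ hχ g hg
    obtain ⟨w, hw, hw0⟩ := Submodule.exists_mem_ne_zero_of_ne_bot hχ
    rw [← map_Vw h hg χ, Submodule.ne_bot_iff]
    refine ⟨_, ⟨w, hw, rfl⟩, ?_⟩
    intro e
    apply hw0
    have e2 := congrArg
      (((g⁻¹ : Matrix.GeneralLinearGroup (Fin n) K) : Matrix (Fin n) (Fin n) K).mulVec) e
    rwa [Matrix.mulVecLin_apply, Matrix.mulVec_mulVec, mg, Matrix.one_mulVec,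
      Matrix.mulVec_zero] at e2
  have h0 : Vw a (fun A => f A.1 A.2) ≠ ⊥ := by
    rw [Submodule.ne_bot_iff]; exact ⟨v, hvm, hv⟩
  have hfin : {U' : Submodule K (Fin n → K) | ∃ g ∈ G,
      U' = (Vw a (fun A => f A.1 A.2)).map
        (Matrix.mulVecLin (g : Matrix (Fin n) (Fin n) K))}.Finite := by
    refine Set.Finite.subset ((finite_Vw (a := a)).image (Vw a)) ?_
    rintro _ ⟨g, hg, rfl⟩
    exact ⟨cw h g hg _, hne _ h0 g hg, (map_Vw h hg _).symm⟩
  rcases hG _ hfin with e | e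
  · exact h0 e
  · set c := f N hN with hc
    have hall : ∀ w : Fin n → K, N.mulVec w = c • w := by
      intro w
      have hw : w ∈ Vw a (fun A => f A.1 A.2) := by rw [e]; trivial
      exact hw ⟨N, hN⟩
    obtain ⟨k, hk⟩ := hnil
    have hpow : ∀ j : ℕ, (N ^ j).mulVec v = c ^ j • v := by
      intro j
      induction j with
      | zero => simp
      | succ j ih => rw [pow_succ', ← Matrix.mulVec_mulVec, ih, Matrix.mulVec_smul, hall,
          smul_smul, pow_succ]
    have h1 := hpow k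
    rw [hk, Matrix.zero_mulVec] at h1
    have hc0 : c = 0 := by
      rcases smul_eq_zero.1 h1.symm with h2 | h2
      · by_contra hc0
        exact pow_ne_zero k hc0 h2
      · exact absurd h2 hv
    apply hN0
    ext i j
    have h3 := congrFun (hall (Pi.single j 1)) i
    rw [hc0, zero_smul, Matrix.mulVec_single_one] at h3
    exact h3

lemma mem_gact (h : Nrm G a) {g : Matrix.GeneralLinearGroup (Fin n) K} (hg : g ∈ G)
    (W : Submodule (Ralg a) (Fin n → K)) {w : Fin n → K} (hw : w ∈ W) :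
    (g : Matrix (Fin n) (Fin n) K).mulVec w ∈ gact h g hg W := ⟨w, hw, rfl⟩

lemma sub_one_mulVec (g : Matrix (Fin n) (Fin n) K) (w : Fin n → K) :
    (g - 1).mulVec w = g.mulVec w - w := by
  rw [Matrix.sub_mulVec, Matrix.one_mulVec]

/-- pseudo-reflections -/
def PR (g : Matrix (Fin n) (Fin n) K) : Prop :=
  ∀ u, (g - 1).mulVec u ≠ 0 → ∀ v, ∃ c : K, (g - 1).mulVec v = c • (g - 1).mulVec u

lemma PR_of_rank {g : Matrix (Fin n) (Fin n) K} (hg : (g - 1).rank = 1) : PR g := by
  intro u hu v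
  rw [Matrix.rank] at hg
  have h1 := (finrank_eq_one_iff_of_nonzero' (⟨(g - 1).mulVec u, u, rfl⟩ :
    LinearMap.range (Matrix.mulVecLin (g - 1))) (by
      intro e; exact hu (congrArg Subtype.val e))).1 hg ⟨(g - 1).mulVec v, v, rfl⟩
  obtain ⟨c, hc⟩ := h1
  exact ⟨c, (congrArg Subtype.val hc).symm⟩

/-- the main alternative -/
lemma alt (h : Nrm G a) (hne : ∀ v : Fin n → K, v ≠ 0 → (∀ A ∈ a, ∃ c : K, A.mulVec v = c • v) →
    False) {r : Matrix.GeneralLinearGroup (Fin n) K} (hr : r ∈ G)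
    (hPR : PR (r : Matrix (Fin n) (Fin n) K)) {W : Submodule (Ralg a) (Fin n → K)}
    (hW : IsAtom W) : (∀ w ∈ W, (r : Matrix (Fin n) (Fin n) K).mulVec w = w) ∨
      ∀ v, ((r : Matrix (Fin n) (Fin n) K) - 1).mulVec v ∈ W := by
  by_cases hWW : gact h r hr W = W
  · by_cases hfix : ∀ w ∈ W, (r : Matrix (Fin n) (Fin n) K).mulVec w = w
    · exact Or.inl hfix
    · right
      push Not at hfix
      obtain ⟨w, hw, hne'⟩ := hfix
      intro v
      obtain ⟨c, hc⟩ := hPR w (by rw [sub_one_mulVec]; exact sub_ne_zero.2 hne') v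
      rw [hc]
      apply smulK_mem
      rw [sub_one_mulVec]
      apply sub_memR _ _ hw
      rw [← hWW]
      exact mem_gact h hr W hw
  · exfalso
    have hW' : IsAtom (gact h r hr W) := (OrderIso.isAtom_iff _ _).2 hW
    have hdis : gact h r hr W ⊓ W = ⊥ := (hW'.disjoint_of_ne hW hWW).eq_bot
    have hinj : ∀ w ∈ W, ((r : Matrix (Fin n) (Fin n) K) - 1).mulVec w = 0 → w = 0 := by
      intro w hw e
      rw [sub_one_mulVec, sub_eq_zero] at e
      have h1 : w ∈ gact h r hr W ⊓ W := by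
        refine ⟨?_, hw⟩
        have := mem_gact h hr W hw
        rwa [e] at this
      rw [hdis] at h1
      exact (Submodule.mem_bot _).1 h1
    obtain ⟨w, hw, hw0⟩ := Submodule.exists_mem_ne_zero_of_ne_bot hW.1
    refine hne w hw0 fun A hA => ?_
    obtain ⟨c, hc⟩ := hPR w (fun e => hw0 (hinj w hw e)) (A.mulVec w)
    refine ⟨c, ?_⟩
    have h2 := hinj (A.mulVec w - c • w) (sub_memR _ (mulVec_mem W hA hw) (smulK_mem _ _ hw)) (by
      rw [Matrix.mulVec_sub, Matrix.mulVec_smul, hc, sub_self])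
    exact sub_eq_zero.1 h2

lemma unq (h : Nrm G a) (hne : ∀ v : Fin n → K, v ≠ 0 → (∀ A ∈ a, ∃ c : K, A.mulVec v = c • v) →
    False) {r : Matrix.GeneralLinearGroup (Fin n) K} (hr : r ∈ G)
    (hPR : PR (r : Matrix (Fin n) (Fin n) K)) {W W' : Submodule (Ralg a) (Fin n → K)}
    (hW : IsAtom W) (hW' : IsAtom W')
    (hf : ¬ ∀ w ∈ W, (r : Matrix (Fin n) (Fin n) K).mulVec w = w) (hWW : W' ≠ W) :
    ∀ w ∈ W', (r : Matrix (Fin n) (Fin n) K).mulVec w = w := by
  have h1 := (alt h hne hr hPR hW).resolve_left hf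
  rcases alt h hne hr hPR hW' with h2 | h2
  · exact h2
  · exfalso
    apply hf
    intro w _
    have h3 : ((r : Matrix (Fin n) (Fin n) K) - 1).mulVec w ∈ W' ⊓ W := ⟨h2 w, h1 w⟩
    rw [(hW'.disjoint_of_ne hW hWW).eq_bot, Submodule.mem_bot, sub_one_mulVec,
      sub_eq_zero] at h3
    exact h3

lemma fix_sSup {s : Set (Submodule (Ralg a) (Fin n → K))} {r : Matrix (Fin n) (Fin n) K}
    (hs : ∀ W ∈ s, ∀ w ∈ W, r.mulVec w = w) : ∀ w ∈ sSup s, r.mulVec w = w := by
  intro w hw
  rw [sSup_eq_iSup'] at hw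
  refine Submodule.iSup_induction (fun W : s => (W : Submodule (Ralg a) (Fin n → K)))
    (motive := fun w => r.mulVec w = w) hw ?_ ?_ ?_
  · intro W w hw
    exact hs W.1 W.2 w hw
  · exact Matrix.mulVec_zero r
  · intro x y hx hy
    rw [Matrix.mulVec_add, hx, hy]

lemma conj_sub_one (g r : Matrix.GeneralLinearGroup (Fin n) K) (v : Fin n → K) :
    (((g * r * g⁻¹ : Matrix.GeneralLinearGroup (Fin n) K) : Matrix (Fin n) (Fin n) K) - 1).mulVec
      ((g : Matrix (Fin n) (Fin n) K).mulVec v) =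
    (g : Matrix (Fin n) (Fin n) K).mulVec (((r : Matrix (Fin n) (Fin n) K) - 1).mulVec v) := by
  rw [Matrix.mulVec_mulVec, Matrix.mulVec_mulVec]
  congr 1
  rw [Units.val_mul, Units.val_mul, sub_mul, mul_assoc, mg, mul_one, mul_sub, one_mul, mul_one]

lemma conj_PR (g : Matrix.GeneralLinearGroup (Fin n) K) {r : Matrix.GeneralLinearGroup (Fin n) K}
    (hPR : PR (r : Matrix (Fin n) (Fin n) K)) :
    PR ((g * r * g⁻¹ : Matrix.GeneralLinearGroup (Fin n) K) : Matrix (Fin n) (Fin n) K) := by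
  intro u hu v
  have hx : ∀ x : Fin n → K, x = (g : Matrix (Fin n) (Fin n) K).mulVec
      (((g⁻¹ : Matrix.GeneralLinearGroup (Fin n) K) : Matrix (Fin n) (Fin n) K).mulVec x) := by
    intro x
    rw [Matrix.mulVec_mulVec, gm, Matrix.one_mulVec]
  rw [hx u, conj_sub_one] at hu
  obtain ⟨c, hc⟩ := hPR (((g⁻¹ : Matrix.GeneralLinearGroup (Fin n) K) :
    Matrix (Fin n) (Fin n) K).mulVec u) (fun e => hu (by rw [e, Matrix.mulVec_zero]))
    (((g⁻¹ : Matrix.GeneralLinearGroup (Fin n) K) : Matrix (Fin n) (Fin n) K).mulVec v)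
  refine ⟨c, ?_⟩
  rw [hx u, hx v, conj_sub_one, conj_sub_one, hc, Matrix.mulVec_smul]

end Gact

end Clif8

open Clif Clif8 in
theorem st_CLIF8 : ST_CLIF8 := by
  classical
  intro K _ _ n G a N hG hnorm hpr hN hN0 hnil U hU
  have hnrm : Nrm G a := hnorm
  obtain ⟨r, hr, hrk⟩ := hpr
  have hPR := PR_of_rank hrk
  have hne : ∀ v : Fin n → K, v ≠ 0 → (∀ A ∈ a, ∃ c : K, A.mulVec v = c • v) → False :=
    fun v hv hev => no_eig hG hnrm hN hN0 hnil hv hev
  by_cases hn : n = 0
  · subst hn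
    left
    rw [eq_bot_iff]
    intro v _
    rw [Submodule.mem_bot]
    exact Subsingleton.elim _ _
  have : Nonempty (Fin n) := ⟨⟨0, Nat.pos_of_ne_zero hn⟩⟩
  have hart : IsArtinian (Ralg a) (Fin n → K) := isArtinian_of_tower K inferInstance
  have hnoe : IsNoetherian (Ralg a) (Fin n → K) := isNoetherian_of_tower K inferInstance
  have hatom : IsAtomic (Submodule (Ralg a) (Fin n → K)) :=
    isAtomic_of_orderBot_wellFounded_lt wellFounded_lt
  obtain ⟨S, hS, -⟩ := (IsAtomic.eq_bot_or_exists_atom_le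
    (⊤ : Submodule (Ralg a) (Fin n → K))).resolve_left top_ne_bot
  -- the sum of all simple submodules
  have hsup : sSup {S : Submodule (Ralg a) (Fin n → K) | IsAtom S} = ⊤ := by
    set A := sSup {S : Submodule (Ralg a) (Fin n → K) | IsAtom S} with hA
    have hinv : ∀ g (hg : g ∈ G), gact hnrm g hg A = A := by
      intro g hg
      rw [hA, map_sSup]
      congr 1
      ext T
      simp only [Set.mem_image, Set.mem_ofPred_eq]
      constructor
      · rintro ⟨T, hT, rfl⟩
        exact (OrderIso.isAtom_iff _ _).2 hT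
      · intro hT
        exact ⟨(gact hnrm g hg).symm T, (OrderIso.isAtom_iff _ _).2 hT, by simp⟩
    have hfin : {U' : Submodule K (Fin n → K) | ∃ g ∈ G,
        U' = (toK A).map (Matrix.mulVecLin (g : Matrix (Fin n) (Fin n) K))}.Finite := by
      refine Set.Finite.subset (Set.finite_singleton (toK A)) ?_
      rintro _ ⟨g, hg, rfl⟩
      rw [Set.mem_singleton_iff]
      have := congrArg toK (hinv g hg)
      exact this
    rcases hG _ hfin with h | h
    · exfalso
      apply hS.1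
      rw [eq_bot_iff]
      intro v hv
      have h1 : v ∈ A := (le_sSup (a := S) hS) hv
      have h2 : v ∈ toK A := h1
      rw [h, Submodule.mem_bot] at h2
      rw [Submodule.mem_bot]; exact h2
    · rw [eq_top_iff]
      intro v _
      have h2 : v ∈ toK A := by rw [h]; trivial
      exact h2
  -- a simple submodule not fixed by the pseudo-reflection
  obtain ⟨W₀, hW₀, hf₀⟩ : ∃ W₀ : Submodule (Ralg a) (Fin n → K), IsAtom W₀ ∧
      ¬ ∀ w ∈ W₀, (r : Matrix (Fin n) (Fin n) K).mulVec w = w := by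
    by_contra hcon
    push Not at hcon
    have h1 := fix_sSup (s := {S : Submodule (Ralg a) (Fin n → K) | IsAtom S})
      (r := (r : Matrix (Fin n) (Fin n) K)) (fun W hW => hcon W hW)
    rw [hsup] at h1
    have h2 : (r : Matrix (Fin n) (Fin n) K) - 1 = 0 := by
      ext i j
      have h3 := congrFun (h1 (Pi.single j 1) trivial) i
      rw [Matrix.mulVec_single_one] at h3
      rw [Matrix.sub_apply, Matrix.zero_apply, sub_eq_zero, Matrix.one_apply]
      have h4 : (r : Matrix (Fin n) (Fin n) K) i j = (Pi.single j (1 : K) : Fin n → K) i := h3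
      rw [h4, Pi.single_apply]
    rw [h2, Matrix.rank_zero] at hrk
    exact zero_ne_one hrk
  -- its orbit is independent
  have hind : sSupIndep {W : Submodule (Ralg a) (Fin n → K) | ∃ g, ∃ hg : g ∈ G,
      W = gact hnrm g hg W₀} := by
    rintro W ⟨g, hg, rfl⟩
    have hat : IsAtom (gact hnrm g hg W₀) := (OrderIso.isAtom_iff _ _).2 hW₀
    have hr' : g * r * g⁻¹ ∈ G := G.mul_mem (G.mul_mem hg hr) (G.inv_mem hg)
    have hPR' := conj_PR g hPR
    have hnf : ¬ ∀ w ∈ gact hnrm g hg W₀,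
        ((g * r * g⁻¹ : Matrix.GeneralLinearGroup (Fin n) K) :
          Matrix (Fin n) (Fin n) K).mulVec w = w := by
      intro hall
      apply hf₀
      intro w hw
      have h1 := hall _ (mem_gact hnrm hg W₀ hw)
      rw [← sub_eq_zero, ← sub_one_mulVec, conj_sub_one] at h1
      have h2 := congrArg
        (((g⁻¹ : Matrix.GeneralLinearGroup (Fin n) K) : Matrix (Fin n) (Fin n) K).mulVec) h1
      rw [Matrix.mulVec_mulVec, mg, Matrix.one_mulVec, Matrix.mulVec_zero, sub_one_mulVec,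
        sub_eq_zero] at h2
      exact h2
    have hfix := fix_sSup (s := {W : Submodule (Ralg a) (Fin n → K) | ∃ g, ∃ hg : g ∈ G,
      W = gact hnrm g hg W₀} \ {gact hnrm g hg W₀})
      (r := ((g * r * g⁻¹ : Matrix.GeneralLinearGroup (Fin n) K) : Matrix (Fin n) (Fin n) K)) (by
        rintro W' ⟨⟨g', hg', rfl⟩, hW'⟩
        exact unq hnrm hne hr' hPR' hat ((OrderIso.isAtom_iff _ _).2 hW₀) hnf hW')
    rw [disjoint_iff]
    by_contra hnb
    have h1 : gact hnrm g hg W₀ ⊓ sSup ({W : Submodule (Ralg a) (Fin n → K) | ∃ g, ∃ hg : g ∈ G,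
      W = gact hnrm g hg W₀} \ {gact hnrm g hg W₀}) = gact hnrm g hg W₀ := by
      rcases hat.le_iff.1 (inf_le_left (a := gact hnrm g hg W₀)
        (b := sSup ({W : Submodule (Ralg a) (Fin n → K) | ∃ g, ∃ hg : g ∈ G,
          W = gact hnrm g hg W₀} \ {gact hnrm g hg W₀}))) with h1 | h1
      · exact absurd h1 hnb
      · exact h1
    apply hnf
    intro w hw
    apply hfix
    rw [← h1] at hw
    exact hw.2
  have hfinat := WellFoundedGT.finite_of_sSupIndep hind
  have hfin : {U' : Submodule K (Fin n → K) | ∃ g ∈ G,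
      U' = (toK W₀).map (Matrix.mulVecLin (g : Matrix (Fin n) (Fin n) K))}.Finite := by
    refine Set.Finite.subset (hfinat.image toK) ?_
    rintro _ ⟨g, hg, rfl⟩
    exact ⟨gact hnrm g hg W₀, ⟨g, hg, rfl⟩, rfl⟩
  have hStop : W₀ = ⊤ := by
    rcases hG _ hfin with h | h
    · exfalso
      apply hW₀.1
      rw [eq_bot_iff]
      intro v hv
      have h2 : v ∈ toK W₀ := hv
      rw [h, Submodule.mem_bot] at h2
      rw [Submodule.mem_bot]; exact h2
    · rw [eq_top_iff]
      intro v _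
      have h2 : v ∈ toK W₀ := by rw [h]; trivial
      exact h2
  rw [hStop] at hW₀
  by_cases htop : toR U hU = ⊤
  · right
    rw [eq_top_iff]
    intro v _
    have h2 : v ∈ toR U hU := by rw [htop]; trivial
    exact h2
  · left
    have h3 := hW₀.2 _ (lt_top_iff_ne_top.2 htop)
    rw [eq_bot_iff]
    intro v hv
    have h2 : v ∈ toR U hU := hv
    rw [h3, Submodule.mem_bot] at h2
    rw [Submodule.mem_bot]; exact h2

end MT
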